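import Pool.Agent.Q138.Met.SqVar

set_option autoImplicit false

/-!
# The law of `Δ_2` along almost every dilation of a sequence

For almost all `t > 0` the normalised error terms of the Dirichlet divisor problem (the case `k = 2` of the Piltz
divisor problem) at the points `t u_1, t u_2, …` have Heath-Brown's limit law.
-/

namespace Pool.Agent.Results.MP_bc6037_nt.AlmostEveryDilation

open Filter Topology MeasureTheory Finset
open Pool.Agent.Q138.Met

/-- Let `Δ_2(x) = ∑_{n ≤ x} d_2(n) - x log x - (2γ - 1)x`, with the number `d_2(n)` of the divisors of `n`, and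
`E(x) = Δ_2(x)/x^{1/4}`. There is a law `ν` on `ℝ` (Heath-Brown's law) with a density which extends to an entire
function, charging every interval, with mean `0` and variance `(1/(4π²)) ∑ d_2(h)² h^{-3/2}`, such that for every
sequence `u_k > 0` with `√u_{k+1} ≥ √u_k + δ`, `δ > 0` (for instance `u_k = 2^k`, `u_k = k²`), the following holds for
almost all `t > 0`.

(1) The averages of `f(E(t u_k))` over `k < K` tend to `∫ f dν` for every continuous `f` with
`f(z) = O(1 + z²)`. In particular the mean of `Δ_2(t u_k)² / (t u_k)^{1/2}` tends to the variance of `ν`.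

(2) For every set `A` whose boundary has measure `0` the proportion of the `k < K` with `E(t u_k) ∈ A` tends to
`ν(A)`. In particular `|Δ_2(t u_k)| ≤ V (t u_k)^{1/4}` for a proportion `ν([-V, V]) → 1` of the `k`, and both
`Δ_2(t u_k) > V (t u_k)^{1/4}` and `< -V (t u_k)^{1/4}` for a positive proportion, for every `V`. -/
theorem result (E : ℝ → ℝ)
    (hE : ∀ x : ℝ, E x = ((∑ n ∈ Finset.Icc 1 ⌊x⌋₊, (n.divisors.card : ℝ)) - x * Real.log x
      - (2 * Real.eulerMascheroniConstant - 1) * x) / x ^ (1 / 4 : ℝ)) :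
    ∃ (ν : ProbabilityMeasure ℝ) (g : ℂ → ℂ),
      (Differentiable ℂ g ∧ (∀ x : ℝ, 0 ≤ (g x).re ∧ (g x).im = 0) ∧
        (ν : Measure ℝ) = volume.withDensity (fun x : ℝ => ENNReal.ofReal (g x).re) ∧
        (∀ u v : ℝ, u < v → 0 < (ν : Measure ℝ) (Set.Ioo u v)) ∧
        Integrable (fun x : ℝ => x ^ 2) (ν : Measure ℝ) ∧ ∫ x, x ∂(ν : Measure ℝ) = 0 ∧
        ∫ x, x ^ 2 ∂(ν : Measure ℝ) =
          (∑' h : ℕ, (h.divisors.card : ℝ) ^ 2 / (h : ℝ) ^ (3 / 2 : ℝ)) / (4 * Real.pi ^ 2)) ∧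
      ∀ (u : ℕ → ℝ) (δ : ℝ), 0 < δ → 0 < u 0 → (∀ k, √(u k) + δ ≤ √(u (k + 1))) →
        ∀ᵐ t : ℝ, 0 < t →
          (∀ f : ℝ → ℝ, Continuous f → (∃ C : ℝ, ∀ z, |f z| ≤ C * (1 + z ^ 2)) →
            Tendsto (fun K : ℕ => (∑ k ∈ range K, f (E (t * u k))) / K) atTop
              (𝓝 (∫ z, f z ∂(ν : Measure ℝ)))) ∧
          ∀ A : Set ℝ, volume (frontier A) = 0 →
            Tendsto (fun K : ℕ => ({k : ℕ | k < K ∧ E (t * u k) ∈ A}.ncard : ℝ) / K)
              atTop (𝓝 ((ν : Measure ℝ).real A)) := by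
  have hEc : E = Pool.Agent.H425R3.JL.Edv := funext hE
  subst hEc
  exact div_dil

end Pool.Agent.Results.MP_bc6037_nt.AlmostEveryDilation
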