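import Pool.Agent.Q138.Met.IndepSq

set_option autoImplicit false

/-!
# The values of `Δ_2` along dilated sparse sequences are asymptotically independent

If `u_{k+1}/u_k → ∞` then for almost all `t > 0` the normalised error terms of the Dirichlet divisor problem (the case
`k = 2` of the Piltz divisor problem) at the points `t u_0, t u_1, t u_2, …` behave like independent random variables
whose law is Heath-Brown's law.
-/

namespace Pool.Agent.Results.MP_bc6037_nt.AsymptoticIndependence

open Filter Topology MeasureTheory Finset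
open Pool.Agent.Q138.Met

/-- Let `Δ_2(x) = ∑_{n ≤ x} d_2(n) - x log x - (2γ - 1)x`, with the number `d_2(n)` of the divisors of `n`, and
`E(x) = Δ_2(x)/x^{1/4}`. There is a law `ν` on `ℝ` (Heath-Brown's law) with a density which extends to an entire
function, charging every interval, with mean `0` and variance `(1/(4π²)) ∑ d_2(h)² h^{-3/2}`, such that for every
sequence of positive reals with `u_{k+1}/u_k → ∞` (for instance `u_k = k!`) and almost all `t > 0` the sequence
`E(t u_k)` behaves like a sequence of independent random variables with the law `ν`: for every `m` and every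
`A ⊆ ℝ^m` with `ν^m(∂A) = 0` the proportion of the `k < K` with `(E(t u_k), …, E(t u_{k+m-1})) ∈ A` tends to
`ν^m(A)`, where `ν^m` is the product measure `ν × ⋯ × ν`. -/
theorem result (E : ℝ → ℝ)
    (hE : ∀ x : ℝ, E x = ((∑ n ∈ Finset.Icc 1 ⌊x⌋₊, (n.divisors.card : ℝ)) - x * Real.log x
      - (2 * Real.eulerMascheroniConstant - 1) * x) / x ^ (1 / 4 : ℝ)) :
    ∃ (ν : ProbabilityMeasure ℝ) (g : ℂ → ℂ),
      (Differentiable ℂ g ∧ (∀ x : ℝ, 0 ≤ (g x).re ∧ (g x).im = 0) ∧
        (ν : Measure ℝ) = volume.withDensity (fun x : ℝ => ENNReal.ofReal (g x).re) ∧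
        (∀ u v : ℝ, u < v → 0 < (ν : Measure ℝ) (Set.Ioo u v)) ∧
        Integrable (fun x : ℝ => x ^ 2) (ν : Measure ℝ) ∧ ∫ x, x ∂(ν : Measure ℝ) = 0 ∧
        ∫ x, x ^ 2 ∂(ν : Measure ℝ) =
          (∑' h : ℕ, (h.divisors.card : ℝ) ^ 2 / (h : ℝ) ^ (3 / 2 : ℝ)) / (4 * Real.pi ^ 2)) ∧
      ∀ u : ℕ → ℝ, (∀ k, 0 < u k) → Tendsto (fun k => u (k + 1) / u k) atTop atTop →
        ∀ᵐ t : ℝ, 0 < t → ∀ (m : ℕ) (A : Set (Fin m → ℝ)),
          (Measure.pi fun _ : Fin m => (ν : Measure ℝ)) (frontier A) = 0 →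
            Tendsto (fun K : ℕ => ({k : ℕ | k < K ∧
              (fun j : Fin m => E (t * u (k + j))) ∈ A}.ncard : ℝ) / K) atTop
              (𝓝 ((Measure.pi fun _ : Fin m => (ν : Measure ℝ)).real A)) := by
  have hEc : E = Pool.Agent.H425R3.JL.Edv := funext hE
  subst hEc
  exact div_ind

end Pool.Agent.Results.MP_bc6037_nt.AsymptoticIndependence
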