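import Pool.Agent.Q138.Met.SqVar

set_option autoImplicit false

/-!
# The conjectured bound for `Δ_2` near almost every dilation of a rapidly growing sequence

Bounds for the error term `Δ_2(x) = ∑_{n ≤ x} d(n) - x log x - (2γ - 1)x` of the Dirichlet divisor problem (the
case `k = 2` of the Piltz divisor problem) in windows around `t u_k`, for almost all `t > 0`, and for all `t > 0`
outside a set of small Hausdorff dimension.
-/

namespace Pool.Agent.Results.MP_bc6037_nt.DilatedBounds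

open Filter Topology MeasureTheory
open Pool.Agent.Q138.Met

/-- Let `Δ_2(x) = ∑_{n ≤ x} d_2(n) - x log x - (2γ - 1)x`, with the number `d_2(n)` of the divisors of `n`, and
`E(x) = Δ_2(x)/x^{1/4}`. The conjecture `α_2 = 1/4` is `E(x) = O(x^ε)` for every `ε > 0`.

(1) Let `u_k > 0` be a sequence which grows faster than every power of `k`, for instance `u_k = 2^k`. For almost all
`t > 0` and all `B` and `η > 0` the bound `|E(x)| ≤ k^η` holds in the whole window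
`t u_k ≤ x ≤ t u_k + k^B`, for all large `k`. For `u_k = 2^k` this is `Δ_2(x) = O(x^{1/4} (log x)^η)` in the windows
`[t 2^k, t 2^k + k^B]`.

(2) There is a constant `c > 0` such that for all `0 < ε ≤ c`, `κ = c ε log(1/ε)`, `0 ≤ lam ≤ 1` and all sequences
`u_k > 0` the set `T` of all `t > 0` for which the conjectured bound `|Δ_2(x)| ≤ x^{1/4 + ε}` fails somewhere in the
window `t u_k ≤ x ≤ t u_k + u_k^lam`, for infinitely many `k`, is small: its `s`-dimensional Hausdorff measure is `0`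
for every `s > 1 - κ + lam` with `∑ u_k^{1 - κ + lam - s} < ∞`, and its Hausdorff dimension is at most `1 - κ + lam` if
`u_k` grows faster than every power of `k`. -/
theorem result (E : ℝ → ℝ)
    (hE : ∀ x : ℝ, E x = ((∑ n ∈ Finset.Icc 1 ⌊x⌋₊, (n.divisors.card : ℝ)) - x * Real.log x
      - (2 * Real.eulerMascheroniConstant - 1) * x) / x ^ (1 / 4 : ℝ)) :
    (∀ u : ℕ → ℝ, (∀ k, 0 < u k) → (∀ A : ℝ, ∀ᶠ k : ℕ in atTop, (k : ℝ) ^ A ≤ u k) →
      ∀ᵐ t : ℝ, 0 < t → ∀ B η : ℝ, 0 < η → ∀ᶠ k : ℕ in atTop, ∀ x : ℝ, t * u k ≤ x →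
        x ≤ t * u k + (k : ℝ) ^ B → |E x| ≤ (k : ℝ) ^ η) ∧
    ∃ c : ℝ, 0 < c ∧ ∀ ε : ℝ, 0 < ε → ε ≤ c → ∀ κ : ℝ, κ = c * (ε * Real.log (1 / ε)) →
      ∀ lam : ℝ, 0 ≤ lam → lam ≤ 1 → ∀ u : ℕ → ℝ, (∀ k, 0 < u k) →
      ∀ T : Set ℝ, T = {t : ℝ | 0 < t ∧ ∃ᶠ k in atTop, ∃ x : ℝ, t * u k ≤ x ∧
        x ≤ t * u k + (u k) ^ lam ∧ x ^ ε < |E x|} →
      (∀ s : ℝ, 1 - κ + lam < s → (Summable fun k => (u k) ^ (1 - κ + lam - s)) →
        μH[s] T = 0) ∧
      ((∀ A : ℝ, ∀ᶠ k : ℕ in atTop, (k : ℝ) ^ A ≤ u k) →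
        dimH T ≤ ENNReal.ofReal (1 - κ + lam)) := by
  have hEc : E = Pool.Agent.H425R3.JL.Edv := funext hE
  subst hEc
  exact div_bounds

end Pool.Agent.Results.MP_bc6037_nt.DilatedBounds
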