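import Pool.Agent.Q84.NX.Real
import Pool.Agent.Y969.Ex1

/-!
# The divisor problem near the small multiples of the primes of a string

Let `Δ₂(x) = ∑_{n ≤ x} d(n) - x log x - (2γ - 1) x` and `ε > 0`. There is `c > 0`, for all `κ > 0` and `m` there is `c' > 0`
and for every `Z` a number `D` with the following property. For every large `X` there is a set `S` of at most
`(log X) ^ (49 / 50)` primes, all larger than `Z`, such that for EVERY function `f` with values `1` and `-1` on the primes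
at least `X ^ (1 - κ)` integers `r`, `X < r ≤ 3X`, satisfy: the interval `[r, r + D]` contains at least `m` primes, and
for every prime `p` in it

* the Legendre symbol `(p / q)` is `f q` for all odd primes `q ≤ c' log X` outside `S`;
* `|Δ₂(x)| ≤ x ^ (1/4 + ε)` for ALL real `x` within `p ^ c` of a multiple `k p`, `1 ≤ k ≤ p ^ c`.

Method: the bound with a power saving for the number of the exceptional `x` of the starting library (`Y969/Ex1`); few
primes have an exceptional number near one of their small multiples (`Q84/NX/Win`); the Maynard-Tao theorem relative to a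
modulus which is a small power of `X`, in the form that it avoids arbitrary exceptional sets of size `X ^ (1 - η)`
(`Q84/MB/E1-E4`), gives the strings.
-/

set_option autoImplicit false

open scoped Classical

namespace Pool.Agent.Results.MP_bc6037_nt.StringsOfPrimes

open Finset Filter

/-- `Δ₂(x) = ∑_{n ≤ x} d(n) - x log x - (2γ - 1) x` -/
noncomputable def Delta (x : ℝ) : ℝ :=
  (∑ n ∈ Icc 1 ⌊x⌋₊, (n.divisors.card : ℝ)) - x * Real.log x - (2 * Real.eulerMascheroniConstant - 1) * x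

/-- `|Δ₂(x)| ≤ x ^ (1/4 + ε)` for all real `x` within `p ^ c` of a multiple `k p`, `1 ≤ k ≤ p ^ c` -/
def Fine (ε c : ℝ) (p : ℕ) : Prop :=
  ∀ (k : ℕ) (x : ℝ), 1 ≤ k → (k : ℝ) ≤ (p : ℝ) ^ c → |x - k * p| ≤ (p : ℝ) ^ c → |Delta x| ≤ x ^ (1 / 4 + ε)

/-- **Theorem.** -/
theorem result (ε : ℝ) (hε : 0 < ε) : ∃ c : ℝ, 0 < c ∧
    ∀ κ : ℝ, 0 < κ → ∀ m : ℕ, ∃ c' : ℝ, 0 < c' ∧
    ∀ Z : ℕ, ∃ D : ℕ, ∃ X₀ : ℝ, ∀ X : ℝ, X₀ ≤ X →
    ∃ S : Finset ℕ, (∀ q ∈ S, q.Prime ∧ Z < q) ∧ (S.card : ℝ) ≤ (Real.log X) ^ (49 / 50 : ℝ) ∧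
    ∀ f : ℕ → ℤ, (∀ q, f q = 1 ∨ f q = -1) →
      X ^ (1 - κ) ≤ (((Icc 1 ⌊3 * X⌋₊).filter fun r : ℕ => X < r ∧
        m ≤ ((Icc r (r + D)).filter Nat.Prime).card ∧
        ∀ p ∈ Icc r (r + D), p.Prime → Fine ε c p ∧
          ∀ q : ℕ, q.Prime → q ≠ 2 → (q : ℝ) ≤ c' * Real.log X → q ∉ S → jacobiSym p q = f q).card : ℝ) := by
  obtain ⟨c₁, hc₁, hexc⟩ := Pool.Agent.Y969.SW.exc_divisor (1 / 4) (by norm_num)
  obtain ⟨ε', hε'⟩ : ∃ ε', ε' = min (min ε c₁) (1 / 2) := ⟨_, rfl⟩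
  have hε'0 : 0 < ε' := by rw [hε']; exact lt_min (lt_min hε hc₁) (by norm_num)
  have hε'1 : ε' ≤ ε := by rw [hε']; exact (min_le_left _ _).trans (min_le_left _ _)
  have hε'2 : ε' ≤ c₁ := by rw [hε']; exact (min_le_left _ _).trans (min_le_right _ _)
  have hε'3 : ε' ≤ 1 / 2 := by rw [hε']; exact min_le_right _ _
  obtain ⟨C, -, hC⟩ := hexc ε' hε'0 hε'2
  have hμ : 0 < c₁ * (ε' * Real.log (1 / ε')) := by
    have : 0 < Real.log (1 / ε') := Real.log_pos (by rw [lt_div_iff₀ hε'0]; linarith)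
    positivity
  obtain ⟨c, hcdef⟩ : ∃ c, c = min (c₁ * (ε' * Real.log (1 / ε'))) 1 / 16 := ⟨_, rfl⟩
  have hc : 0 < c := by
    rw [hcdef]
    have := lt_min hμ one_pos
    positivity
  have hc16 : c ≤ 1 / 16 := by
    rw [hcdef]
    have := min_le_right (c₁ * (ε' * Real.log (1 / ε'))) 1
    linarith
  have hmain := Pool.Agent.Q84.NX.real_strings
    (fun y => y ^ (1 / 4 + ε') < |Pool.Agent.Y969.SW.Dl y|) C (c₁ * (ε' * Real.log (1 / ε'))) hμ (by
      intro H hH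
      refine le_trans (le_of_eq ?_) (hC 1 H le_rfl (by
        rw [Nat.cast_one, Real.one_rpow]
        exact_mod_cast hH))
      congr!)
  rw [← hcdef] at hmain
  refine ⟨c, hc, fun κ hκ m => ?_⟩
  obtain ⟨c', hc', h⟩ := hmain κ hκ m
  refine ⟨c', hc', fun Z => ?_⟩
  obtain ⟨D, X₀, h⟩ := h Z
  refine ⟨D, max X₀ 16, fun X hX => ?_⟩
  obtain ⟨S, hS1, hS2, h⟩ := h X ((le_max_left _ _).trans hX)
  refine ⟨S, hS1, hS2, fun f hf => (h f hf).trans ?_⟩
  rw [Nat.cast_le]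
  apply card_le_card
  intro r hr
  rw [mem_filter] at hr ⊢
  obtain ⟨h1, h2, h3, h4⟩ := hr
  refine ⟨h1, h2, h3, fun p hp hpp => ⟨?_, (h4 p hp hpp).2⟩⟩
  intro k x hk1 hk2 hkx
  have h5 := (h4 p hp hpp).1 k x hk1 hk2 hkx
  rw [not_lt] at h5
  have hpX : 16 < (p : ℝ) := by
    have h6 : r ≤ p := (mem_Icc.1 hp).1
    have h7 : (r : ℝ) ≤ p := by exact_mod_cast h6
    have h8 : 16 ≤ X := (le_max_right _ _).trans hX
    linarith
  have hpc : (p : ℝ) ^ c ≤ p / 2 := by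
    have h1 : (p : ℝ) ^ c ≤ (p : ℝ) ^ (1 / 2 : ℝ) :=
      Real.rpow_le_rpow_of_exponent_le (by linarith) (by linarith)
    rw [← Real.sqrt_eq_rpow] at h1
    refine h1.trans ?_
    rw [Real.sqrt_le_left (by positivity)]
    nlinarith
  have hkp : (p : ℝ) ≤ k * p := le_mul_of_one_le_left (by linarith) (by exact_mod_cast hk1)
  have hx1 : 1 ≤ x := by
    have := (abs_le.1 hkx).1
    linarith
  exact h5.trans (Real.rpow_le_rpow_of_exponent_le hx1 (by linarith))

end Pool.Agent.Results.MP_bc6037_nt.StringsOfPrimes
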